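import Pool.Agent.Helper70.Isg.Goals2

/-!
# MP_600500_pr, packet CHAIN: the chain rule for the finite volume Gibbs distribution
-/

open MeasureTheory Filter Topology

noncomputable section

namespace Pool.Agent.Helper17.IsgChain

open Pool.Agent.Helper70.Isg

variable {d : ℕ}

/-- the order as a map to a linear order -/
def ky (l : Site d → ℕ) (v : Site d) : ℕ ×ₗ (Lex (Fin d → ℤ)) := toLex (l v, toLex v)

theorem prb_iff (l : Site d → ℕ) (w v : Site d) : prb l w v = true ↔ ky l w < ky l v := by
  classical
  unfold prb ky
  rw [Prod.Lex.toLex_lt_toLex]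
  simp only [decide_eq_true_iff]

theorem ky_inj (l : Site d → ℕ) {w v : Site d} (h : ky l w = ky l v) : w = v := by
  unfold ky at h
  have h1 := congrArg ofLex h
  simp only [ofLex_toLex, Prod.mk.injEq] at h1
  exact h1.2

theorem enrg_erase (hsym : ∀ u v : Site d, v ∈ nbrs u ↔ u ∈ nbrs v)
    (hirr : ∀ u : Site d, u ∉ nbrs u) (U : Finset (Site d)) (v : Site d) (hv : v ∈ U)
    (σ : Cfg d) :
    enrg U σ = enrg (U.erase v) σ
      + ∑ w ∈ (nbrs v).filter (fun w => w ∉ U), sg (σ v) * sg (σ w) := by
  unfold enrg
  rw [← Finset.add_sum_erase U _ hv]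
  have h1 : ∀ u ∈ U.erase v, ∑ w ∈ nbrs u, (if w ∈ U then 1 / 2 else 1) * (sg (σ u) * sg (σ w))
      = (∑ w ∈ nbrs u, (if w ∈ U.erase v then 1 / 2 else 1) * (sg (σ u) * sg (σ w)))
        - (if u ∈ nbrs v then (1 / 2) * (sg (σ u) * sg (σ v)) else 0) := by
    intro u hu
    have h2 : (if u ∈ nbrs v then (1 / 2) * (sg (σ u) * sg (σ v)) else 0)
        = ∑ w ∈ nbrs u, (if w = v then (1 / 2) * (sg (σ u) * sg (σ w)) else 0) := by
      rw [Finset.sum_ite_eq']
      by_cases h : u ∈ nbrs v
      · rw [if_pos h, if_pos ((hsym u v).mpr h)]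
      · rw [if_neg h, if_neg (fun h' => h ((hsym u v).mp h'))]
    rw [h2, ← Finset.sum_sub_distrib]
    apply Finset.sum_congr rfl
    intro w _
    by_cases hw : w = v
    · subst hw
      simp only [hv, if_true, Finset.mem_erase, ne_eq, not_true_eq_false, false_and, if_false]
      ring
    · simp only [hw, Finset.mem_erase, ne_eq, not_false_eq_true, true_and, if_false, sub_zero]
  rw [Finset.sum_congr rfl h1, Finset.sum_sub_distrib]
  have h3 : ∑ u ∈ U.erase v, (if u ∈ nbrs v then (1 / 2) * (sg (σ u) * sg (σ v)) else 0)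
      = ∑ w ∈ nbrs v, (if w ∈ U then (1 / 2) * (sg (σ v) * sg (σ w)) else 0) := by
    rw [← Finset.sum_filter, ← Finset.sum_filter]
    apply Finset.sum_congr
    · ext w
      simp only [Finset.mem_filter, Finset.mem_erase]
      constructor
      · rintro ⟨⟨_, h⟩, h'⟩
        exact ⟨h', h⟩
      · rintro ⟨h', h⟩
        refine ⟨⟨?_, h⟩, h'⟩
        rintro rfl
        exact hirr _ h'
    · intro w _
      ring
  rw [h3]
  have h4 : ∑ w ∈ nbrs v, (if w ∈ U then 1 / 2 else 1) * (sg (σ v) * sg (σ w))
      = ∑ w ∈ nbrs v, (if w ∈ U then (1 / 2) * (sg (σ v) * sg (σ w)) else 0)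
        + ∑ w ∈ (nbrs v).filter (fun w => w ∉ U), sg (σ v) * sg (σ w) := by
    rw [Finset.sum_filter, ← Finset.sum_add_distrib]
    apply Finset.sum_congr rfl
    intro w _
    by_cases hw : w ∈ U <;> simp [hw]
  rw [h4]
  ring

theorem sum_pin (U : Finset (Site d)) (v : Site d) (hv : v ∈ U) (a : Cfg d)
    (F : Cfg d → ℝ) :
    (∑ τ : U → Bool, (if glue U τ a v = a v then F (glue U τ a) else 0))
      = ∑ τ : ↥(U.erase v) → Bool, F (glue (U.erase v) τ a) := by
  rw [← Finset.sum_filter]
  symm
  let i : (↥(U.erase v) → Bool) → (U → Bool) := fun τ u =>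
    if h : (u : Site d) = v then a v else τ ⟨u, Finset.mem_erase.mpr ⟨h, u.2⟩⟩
  let j : (U → Bool) → (↥(U.erase v) → Bool) := fun τ u =>
    τ ⟨u, (Finset.mem_erase.mp u.2).2⟩
  have hg : ∀ τ, glue U (i τ) a = glue (U.erase v) τ a := by
    intro τ
    funext w
    unfold glue
    by_cases hw : w ∈ U
    · by_cases hwv : w = v
      · subst hwv
        simp [i, hw]
      · simp [i, hw, hwv]
    · simp [hw]
  refine Finset.sum_nbij' i j ?_ ?_ ?_ ?_ ?_
  · intro τ _
    rw [Finset.mem_filter]
    refine ⟨Finset.mem_univ _, ?_⟩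
    rw [hg]
    simp [glue]
  · intro τ _
    exact Finset.mem_univ _
  · intro τ _
    funext u
    have : (u : Site d) ≠ v := (Finset.mem_erase.mp u.2).1
    simp [i, j, this]
  · intro τ hτ
    rw [Finset.mem_filter] at hτ
    have h2 := hτ.2
    simp only [glue, hv, dif_pos] at h2
    funext u
    by_cases hu : (u : Site d) = v
    · have : u = ⟨v, hv⟩ := Subtype.ext hu
      subst this
      simp [i, h2]
    · simp [i, j, hu]
  · intro τ _
    rw [hg]

theorem chain (hB : S_BASIC) : S_CHAIN := by
  intro d β Λ l a ha
  obtain ⟨_, hsym, hirr, _, _, _, _, hpf, _⟩ := hB d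
  have hbc : (fun u => if u ∈ Λ then a u else true) = a := by
    funext u
    by_cases hu : u ∈ Λ
    · simp [hu]
    · simp [hu, ha u hu]
  -- one step
  have hstep : ∀ (U : Finset (Site d)) (v : Site d), v ∈ U →
      (if a v then ev β U a (ind v) else 1 - ev β U a (ind v))
        * (wt β (U.erase v) a / pf β (U.erase v) a) = wt β U a / pf β U a := by
    intro U v hv
    set D : ℝ := ∑ w ∈ (nbrs v).filter (fun w => w ∉ U), sg (a v) * sg (a w) with hD
    have hfac : (if a v then ev β U a (ind v) else 1 - ev β U a (ind v))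
        = (∑ τ : U → Bool, (if glue U τ a v = a v then wt β U (glue U τ a) else 0))
          / pf β U a := by
      have hp := (hpf β U a).ne'
      cases hav : a v with
      | true =>
        simp only [if_true]
        unfold ev
        congr 1
        apply Finset.sum_congr rfl
        intro τ _
        unfold ind
        by_cases h : glue U τ a v = true <;> simp [h]
      | false =>
        simp only [Bool.false_eq_true, if_false]
        rw [eq_div_iff hp, sub_mul, one_mul]
        unfold ev
        rw [div_mul_cancel₀ _ hp]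
        have : pf β U a = ∑ τ : U → Bool, wt β U (glue U τ a) := rfl
        rw [this, ← Finset.sum_sub_distrib]
        apply Finset.sum_congr rfl
        intro τ _
        unfold ind
        cases h : glue U τ a v <;> simp
    rw [hfac, sum_pin U v hv a (fun σ => wt β U σ)]
    have hw : ∀ τ : ↥(U.erase v) → Bool,
        wt β U (glue (U.erase v) τ a) = Real.exp (β * D) * wt β (U.erase v) (glue (U.erase v) τ a)
        := by
      intro τ
      unfold wt
      rw [enrg_erase hsym hirr U v hv, ← Real.exp_add]
      congr 1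
      have h1 : ∑ w ∈ (nbrs v).filter (fun w => w ∉ U),
          sg (glue (U.erase v) τ a v) * sg (glue (U.erase v) τ a w) = D := by
        rw [hD]
        apply Finset.sum_congr rfl
        intro w hw
        have hw' := (Finset.mem_filter.mp hw).2
        have e1 : glue (U.erase v) τ a v = a v := by simp [glue]
        have e2 : glue (U.erase v) τ a w = a w := by simp [glue, hw']
        rw [e1, e2]
      rw [h1]
      ring
    have hwa : wt β U a = Real.exp (β * D) * wt β (U.erase v) a := by
      unfold wt
      rw [enrg_erase hsym hirr U v hv, ← Real.exp_add]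
      congr 1
      ring
    rw [Finset.sum_congr rfl (fun τ _ => hw τ), ← Finset.mul_sum, hwa]
    have hp1 := (hpf β U a).ne'
    have hp2 := (hpf β (U.erase v) a).ne'
    have : ∑ τ : ↥(U.erase v) → Bool,
        wt β (U.erase v) (glue (U.erase v) τ a) = pf β (U.erase v) a := rfl
    rw [this]
    field_simp
  -- induction
  have hind : ∀ (n : ℕ) (U : Finset (Site d)), U.card = n → U ⊆ Λ →
      (∀ v ∈ U, ∀ w ∈ Λ, ky l v < ky l w → w ∈ U) →
      ∏ v ∈ U, (if a v then exf β Λ (fun w => prb l w v) v a
        else 1 - exf β Λ (fun w => prb l w v) v a) = wt β U a / pf β U a := by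
    intro n
    induction n with
    | zero =>
      intro U hU _ _
      rw [Finset.card_eq_zero] at hU
      subst hU
      have h1 : wt β (∅ : Finset (Site d)) a = 1 := by simp [wt, enrg]
      have h2 : pf β (∅ : Finset (Site d)) a = 1 := by
        simp [pf, wt, enrg]
      rw [h1, h2]
      simp
    | succ n ih =>
      intro U hU hUL hup
      have hne : U.Nonempty := by
        rw [← Finset.card_pos]
        omega
      obtain ⟨v, hv, hmin⟩ := Finset.exists_min_image U (ky l) hne
      rw [← Finset.mul_prod_erase U _ hv]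
      have hcard : (U.erase v).card = n := by
        rw [Finset.card_erase_of_mem hv]
        omega
      have hup' : ∀ u ∈ U.erase v, ∀ w ∈ Λ, ky l u < ky l w → w ∈ U.erase v := by
        intro u hu w hw huw
        have hu' := Finset.mem_erase.mp hu
        rw [Finset.mem_erase]
        refine ⟨?_, hup u hu'.2 w hw huw⟩
        rintro rfl
        exact absurd (hmin u hu'.2) (not_le.mpr huw)
      rw [ih (U.erase v) hcard ((Finset.erase_subset v U).trans hUL) hup']
      have hUv : Λ.filter (fun u => prb l u v = false) = U := by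
        ext w
        rw [Finset.mem_filter]
        constructor
        · rintro ⟨hw, hp⟩
          have h1 : ¬ ky l w < ky l v := by
            intro h
            rw [(prb_iff l w v).mpr h] at hp
            exact absurd hp (by simp)
          rcases (not_lt.mp h1).eq_or_lt with h2 | h2
          · rw [← ky_inj l h2]
            exact hv
          · exact hup v hv w hw h2
        · intro hw
          refine ⟨hUL hw, ?_⟩
          rw [← Bool.not_eq_true, prb_iff]
          exact not_lt.mpr (hmin w hw)
      have hexf : exf β Λ (fun w => prb l w v) v a = ev β U a (ind v) := by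
        unfold exf
        rw [hbc, hUv]
      rw [hexf]
      exact hstep U v hv
  rw [hind Λ.card Λ rfl (Finset.Subset.refl _) (fun _ _ w hw _ => hw)]
  congr 1
  unfold pf
  apply Finset.sum_congr rfl
  intro τ _
  congr 1
  funext w
  unfold glue
  by_cases hw : w ∈ Λ
  · simp [hw]
  · simp [hw, ha w hw, allT]

end Pool.Agent.Helper17.IsgChain
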