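import Pool.Agent.Helper70.Isg.Goals2

/-!
# MP_600500_pr, packet E1: influence of the boundary fields is maximal at zero external field
-/

open MeasureTheory Filter Topology

noncomputable section

namespace Pool.Agent.Helper17.IsgE1

open Pool.Agent.Helper70.Isg

/-- The real inequality behind the packet. -/
theorem alg (x z w y p q : ℝ) (hx : 0 < x) (hz : 0 < z) (hw : 0 < w) (hy : 0 < y)
    (hp : 0 < p) (hq : 0 < q) (hqp : q ≤ p) (h : x * y * q ^ 2 ≤ z * w * p ^ 2) :
    (x - z) / (x + z) - (w - y) / (w + y) ≤ 2 * ((p - q) / (p + q)) := by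
  have hxz : 0 < x + z := by positivity
  have hwy : 0 < w + y := by positivity
  have hpq : 0 < p + q := by positivity
  have hrhs : 0 ≤ 2 * ((p - q) / (p + q)) := by
    have : 0 ≤ p - q := by linarith
    positivity
  have hl : (x - z) / (x + z) - (w - y) / (w + y)
      = 2 * ((x * y - z * w) / ((x + z) * (w + y))) := by
    field_simp
    ring
  rw [hl]
  by_cases hc : x * y ≤ z * w
  · have : (x * y - z * w) / ((x + z) * (w + y)) ≤ 0 := by
      apply div_nonpos_of_nonpos_of_nonneg
      · linarith
      · positivity
    linarith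
  · push Not at hc
    set X := Real.sqrt (x * y) with hX
    set W := Real.sqrt (z * w) with hW
    have hXs : X ^ 2 = x * y := Real.sq_sqrt (by positivity)
    have hWs : W ^ 2 = z * w := Real.sq_sqrt (by positivity)
    have hX0 : 0 < X := Real.sqrt_pos.mpr (by positivity)
    have hW0 : 0 < W := Real.sqrt_pos.mpr (by positivity)
    have hXW : W < X := Real.sqrt_lt_sqrt (by positivity) hc
    have h1 : X * q ≤ W * p := by
      have h2 : (X * q) ^ 2 ≤ (W * p) ^ 2 := by
        rw [mul_pow, mul_pow, hXs, hWs]
        exact h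
      exact (pow_le_pow_iff_left₀ (by positivity) (by positivity) (by norm_num)).mp h2
    have h3 : 2 * (X * W) ≤ x * w + z * y := by
      have h4 : (2 * (X * W)) ^ 2 ≤ (x * w + z * y) ^ 2 := by
        have : (2 * (X * W)) ^ 2 = 4 * ((x * w) * (z * y)) := by
          rw [mul_pow, mul_pow, hXs, hWs]
          ring
        rw [this]
        nlinarith [sq_nonneg (x * w - z * y)]
      exact (pow_le_pow_iff_left₀ (by positivity) (by positivity) (by norm_num)).mp h4
    have h5 : (X + W) ^ 2 ≤ (x + z) * (w + y) := by nlinarith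
    have h6 : (x * y - z * w) / ((x + z) * (w + y)) ≤ (X - W) / (X + W) := by
      rw [div_le_div_iff₀ (by positivity) (by positivity)]
      have h7 : x * y - z * w = (X - W) * (X + W) := by
        rw [← hXs, ← hWs]
        ring
      rw [h7]
      have h8 : 0 ≤ X - W := by linarith
      nlinarith [mul_le_mul_of_nonneg_left h5 h8]
    have h9 : (X - W) / (X + W) ≤ (p - q) / (p + q) := by
      rw [div_le_div_iff₀ (by positivity) (by positivity)]
      nlinarith
    linarith

variable {V : Type} [Fintype V] [DecidableEq V]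

/-- The edge set of the graph with a ghost vertex. -/
abbrev Ed (V : Type) := (V × V) ⊕ V

/-- first endpoint -/
def ea : Ed V → Option V := Sum.elim (fun e => some e.1) (fun _ => none)

/-- second endpoint -/
def eb : Ed V → Option V := Sum.elim (fun e => some e.2) (fun u => some u)

/-- couplings -/
def eJ (J : V → V → ℝ) (K : V → ℝ) : Ed V → ℝ := Sum.elim (fun e => J e.1 e.2) K

/-- partition function with one prescribed spin -/
def Z (J : V → V → ℝ) (f : V → ℝ) (y : V) (t : Bool) : ℝ :=
  ∑ τ : V → Bool, if τ y = t then Real.exp (gE J f τ) else 0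

omit [DecidableEq V] in
theorem iE_eq (J : V → V → ℝ) (K : V → ℝ) (h' : Option V → ℝ) (h0 : h' none = 0)
    (σ : Option V → Bool) :
    iE Finset.univ ea eb (eJ J K) h' σ
      = gE J ((fun v => h' (some v)) + sg (σ none) • K) (fun v => σ (some v)) := by
  unfold iE gE
  rw [Fintype.sum_sum_type, Fintype.sum_option, h0, Fintype.sum_prod_type]
  simp only [ea, eb, eJ, Sum.elim_inl, Sum.elim_inr, zero_mul, zero_add, Pi.add_apply,
    Pi.smul_apply, smul_eq_mul]
  rw [add_assoc, ← Finset.sum_add_distrib]
  congr 1
  apply Finset.sum_congr rfl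
  intro u _
  ring

theorem iZ2_eq (J : V → V → ℝ) (K : V → ℝ) (h' : Option V → ℝ) (h0 : h' none = 0) (y : V)
    (s t : Bool) :
    iZ2 Finset.univ ea eb (eJ J K) h' none (some y) s t
      = Z J ((fun v => h' (some v)) + sg s • K) y t := by
  unfold iZ2 Z
  rw [← (Equiv.piOptionEquivProd (β := fun _ : Option V => Bool)).symm.sum_comp,
    Fintype.sum_prod_type]
  rw [Finset.sum_eq_single s]
  · apply Finset.sum_congr rfl
    intro τ _
    have e1 : ((Equiv.piOptionEquivProd (β := fun _ : Option V => Bool)).symm (s, τ)) none = s :=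
      rfl
    have e2 : ∀ v, ((Equiv.piOptionEquivProd (β := fun _ : Option V => Bool)).symm (s, τ)) (some v)
        = τ v := fun v => rfl
    rw [iE_eq J K h' h0]
    simp only [e1, e2, true_and]
  · intro b _ hb
    apply Finset.sum_eq_zero
    intro τ _
    have e1 : ((Equiv.piOptionEquivProd (β := fun _ : Option V => Bool)).symm (b, τ)) none = b :=
      rfl
    rw [if_neg]
    rw [e1]
    exact fun hh => hb hh.1
  · intro hs
    exact absurd (Finset.mem_univ s) hs

theorem Z_pos (J : V → V → ℝ) (f : V → ℝ) (y : V) (t : Bool) : 0 < Z J f y t := by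
  unfold Z
  apply Finset.sum_pos'
  · intro τ _
    split_ifs
    · exact (Real.exp_pos _).le
    · exact le_refl 0
  · refine ⟨fun _ => t, Finset.mem_univ _, ?_⟩
    rw [if_pos rfl]
    exact Real.exp_pos _

theorem gav_eq (J : V → V → ℝ) (f : V → ℝ) (y : V) :
    gav J f (fun σ => sg (σ y))
      = (Z J f y true - Z J f y false) / (Z J f y true + Z J f y false) := by
  unfold gav Z
  congr 1
  · rw [← Finset.sum_sub_distrib]
    apply Finset.sum_congr rfl
    intro τ _
    rcases hb : τ y <;> simp [hb, sg]
  · rw [← Finset.sum_add_distrib]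
    apply Finset.sum_congr rfl
    intro τ _
    rcases hb : τ y <;> simp

theorem Z_flip (J : V → V → ℝ) (y : V) : Z J 0 y true = Z J 0 y false := by
  unfold Z
  let e : (V → Bool) ≃ (V → Bool) :=
    { toFun := fun τ v => !(τ v)
      invFun := fun τ v => !(τ v)
      left_inv := fun τ => by funext v; simp
      right_inv := fun τ => by funext v; simp }
  rw [← e.sum_comp]
  apply Finset.sum_congr rfl
  intro τ _
  have h1 : gE J 0 (e τ) = gE J 0 τ := by
    unfold gE
    congr 1
    · apply Finset.sum_congr rfl
      intro u _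
      apply Finset.sum_congr rfl
      intro v _
      have : ∀ b : Bool, sg (!b) = - sg b := by intro b; cases b <;> simp [sg]
      change J u v * (sg (!(τ u)) * sg (!(τ v))) = _
      rw [this, this]
      ring
    · simp
  rw [h1]
  change (if (!(τ y)) = true then _ else _) = _
  cases τ y <;> simp

theorem E1 (hD : S_DSS) (hF : S_FKGH) : S_E1 := by
  intro V _ _ J h K y hJ hK
  have hd := hD (Option V) (Ed V) Finset.univ ea eb (eJ J K) (fun o => o.elim 0 h) none (some y)
    (by
      intro e
      cases e with
      | inl e => exact hJ _ _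
      | inr u => exact hK u) (by simp)
  unfold dssI at hd
  rw [iZ2_eq J K _ rfl, iZ2_eq J K _ rfl, iZ2_eq J K _ rfl, iZ2_eq J K _ rfl,
    iZ2_eq J K _ rfl, iZ2_eq J K _ rfl] at hd
  have e1 : (fun v => (fun o : Option V => o.elim 0 h) (some v)) + sg true • K = h + K := by
    funext v
    simp [sg]
  have e2 : (fun v => (fun o : Option V => o.elim 0 h) (some v)) + sg false • K = h - K := by
    funext v
    simp [sg, sub_eq_add_neg]
  have e3 : (fun v => (0 : Option V → ℝ) (some v)) + sg true • K = K := by
    funext v
    simp [sg]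
  rw [e1, e2, e3] at hd
  rw [gav_eq, gav_eq, gav_eq]
  have hqp : Z J K y false ≤ Z J K y true := by
    have h1 := hF V J 0 K (fun σ => sg (σ y)) hJ hK (by
      intro σ τ hst
      have := hst y
      revert this
      simp only [sg]
      cases σ y <;> cases τ y <;> simp)
    rw [gav_eq, gav_eq, Z_flip, sub_self, zero_div] at h1
    have h2 := Z_pos J K y true
    have h3 := Z_pos J K y false
    by_contra hcon
    push Not at hcon
    have : (Z J K y true - Z J K y false) / (Z J K y true + Z J K y false) < 0 := by
      apply div_neg_of_neg_of_pos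
      · linarith
      · linarith
    linarith
  exact alg _ _ _ _ _ _ (Z_pos _ _ _ _) (Z_pos _ _ _ _) (Z_pos _ _ _ _) (Z_pos _ _ _ _)
    (Z_pos _ _ _ _) (Z_pos _ _ _ _) hqp (by linarith)

end Pool.Agent.Helper17.IsgE1
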